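import Pool.Agent.V1180.HTf

/-!
# MP_919c6d_an, Q1: yes

There is `f` in `H^∞(T^∞)` such that for almost every point of `T^∞` there is a radial approach
with radii decreasing in the index (and nondecreasing along the approach, each vector having
finitely many nonzero entries) along which `f` does not converge to its boundary value.
-/

namespace Pool.Agent.Results.MP_919c6d_an.FailureAtAlmostEveryPoint

open Pool.Agent.V1180.HT MeasureTheory Filter Topology Set

theorem result : ∃ f : Tinf → ℂ, IsHinf f ∧ ∀ᵐ θ ∂mT, ∃ r : ℕ → ℕ → ℝ,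
    (∀ k n, 0 ≤ r k n ∧ r k n < 1) ∧
    (∀ k, (Function.support (r k)).Finite) ∧
    (∀ n, Monotone fun k => r k n) ∧
    (∀ n, Tendsto (fun k => r k n) atTop (𝓝 1)) ∧
    (∀ k, Antitone (r k)) ∧
    ¬ Tendsto (fun k => poissonExt f (fun n => (r k n : ℂ) * (θ n : ℂ))) atTop (𝓝 (f θ)) := by
  refine ⟨ff, ff_Hinf, ?_⟩
  filter_upwards [main_fact] with θ hθ
  obtain ⟨I, hI⟩ := hθ
  refine ⟨fun k => rr k (I k), fun k n => ⟨rr_nonneg _ _ _, rr_lt _ _ _⟩, fun k => ?_,
    fun n => monotone_nat_of_le_succ fun k => rr_step (Nat.lt_succ_self k) _ _ n,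
    fun n => rr_tendsto tendsto_id I n, fun k => rr_anti _ _, hI⟩
  refine (Set.finite_Iio (st (k + 1))).subset fun n hn => ?_
  rw [mem_Iio]
  by_contra hcon
  exact hn (rr_zero _ _ (not_lt.1 hcon))

end Pool.Agent.Results.MP_919c6d_an.FailureAtAlmostEveryPoint
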